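import Pool.Agent.Helper47.FLG.Alg

/-!
# Project FLG, packet EQC (MP_c98eff_gt): the reaction term of an active flag and its equality case
-/

namespace Pool.Agent.Helper47.FLG

open Finset Pool.Agent.Helper47.RFn

theorem EQC_aa {n : ℕ} {R : T4 n} (h : IsCurv R) (a c d : Fin n) : R a a c d = 0 := by
  have := h.a12 a a c d
  linarith

theorem EQC_cc {n : ℕ} {R : T4 n} (h : IsCurv R) (a b c : Fin n) : R a b c c = 0 := by
  have := h.a34 a b c c
  linarith

theorem g_EQC (hFO : G_FO) (hGQ : G_GQ) (hDID : G_DID) (hPSI : G_PSI) : G_EQC := by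
  intro n R i0 i1 i2 r hF
  have hC : IsCurv R := hF.fg.1
  obtain ⟨hr, _, _, hf⟩ := hFO n R i0 i1 i2 r hF
  have hq := hGQ n R i0 i1 i2 r hF
  have hd := hDID n R i0 i1 i2 r hF
  obtain ⟨hp0, hp1⟩ := hPSI n R i0 i1 i2 r hF
  have key : Dl R i0 i1 i2 =
      (∑ q ∈ univ.erase i0, r q * (Wt R i1 i2 q - Gn R i0 i1 i2 r q)) +
      ((∑ q ∈ univ.erase i0, r q * Gn R i0 i1 i2 r q) + 4 * bk R i0 i2 - bk R i0 i1) := by
    have h1 : (∑ q ∈ univ.erase i0, r q * (Wt R i1 i2 q - Gn R i0 i1 i2 r q)) =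
        (∑ q ∈ univ.erase i0, r q * Wt R i1 i2 q) - ∑ q ∈ univ.erase i0, r q * Gn R i0 i1 i2 r q := by
      rw [← Finset.sum_sub_distrib]
      exact Finset.sum_congr rfl fun q _ => by ring
    rw [hd, h1]
    ring
  have hterm : ∀ q ∈ univ.erase i0, 0 ≤ r q * (Wt R i1 i2 q - Gn R i0 i1 i2 r q) := by
    intro q hq1
    have hq2 : q ≠ i0 := Finset.ne_of_mem_erase hq1
    have h1 := (hq q hq2).1
    have h2 := (hr q hq2).1
    exact mul_nonneg (by linarith) (by linarith)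
  have hsum := Finset.sum_nonneg hterm
  refine ⟨by rw [key]; linarith, fun h0 => ?_⟩
  have hPsi : (∑ q ∈ univ.erase i0, r q * Gn R i0 i1 i2 r q) + 4 * bk R i0 i2 - bk R i0 i1 = 0 := by
    linarith
  have hs0 : (∑ q ∈ univ.erase i0, r q * (Wt R i1 i2 q - Gn R i0 i1 i2 r q)) = 0 := by linarith
  have hWG : ∀ q, q ≠ i0 → Wt R i1 i2 q = Gn R i0 i1 i2 r q := by
    intro q hq2
    have h1 := (Finset.sum_eq_zero_iff_of_nonneg hterm).1 hs0 q
      (Finset.mem_erase.2 ⟨hq2, Finset.mem_univ _⟩)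
    have h2 := (hr q hq2).1
    rcases mul_eq_zero.1 h1 with h3 | h3
    · linarith
    · linarith
  obtain ⟨ha, hb, hc⟩ := hp1 hPsi
  have ha1 : ∀ q, q ≠ i0 → R i1 i0 i1 q = 0 := fun q hq2 => by rw [hf q hq2, ha q hq2, mul_zero]
  have A1 : ∀ q, q ≠ i0 → R i0 i1 i1 q = 0 := fun q h => by rw [hC.a12, ha1 q h, neg_zero]
  have A2 : ∀ q, q ≠ i0 → R i0 i2 i2 q = 0 := fun q h => by rw [hC.a12, ha q h, neg_zero]
  have d10 : i1 ≠ i0 := hF.d01.symm
  have d20 : i2 ≠ i0 := hF.d02.symm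
  have hm : ∀ j p, p ∈ (univ.erase i0).erase j → p ≠ i0 ∧ p ≠ j := fun j p hp =>
    ⟨Finset.ne_of_mem_erase (Finset.mem_of_mem_erase hp), Finset.ne_of_mem_erase hp⟩
  -- a sum over all indices is a sum over the others
  have hall : ∀ (j : Fin n) (f : Fin n → ℝ), f i0 = 0 → f j = 0 →
      (∑ p, f p) = ∑ p ∈ (univ.erase i0).erase j, f p := by
    intro j f h1 h2
    rw [← Finset.sum_erase (s := univ) (f := f) h1, ← Finset.sum_erase (s := univ.erase i0) (f := f) h2]
  have hK : R i1 i2 i1 i2 = 1 := by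
    have h1 := hWG i1 d10
    have hG : Gn R i0 i1 i2 r i1 = 0 := by
      unfold Gn
      rw [Finset.sum_eq_zero, Finset.sum_eq_zero, mul_zero, add_zero]
      · intro p hp
        obtain ⟨p0, p2⟩ := hm i2 p hp
        have h2 : 2 * R i0 p i2 i1 - R i0 i1 i2 p = 0 := by
          rcases hc p i1 p0 d10 with ⟨_, h3, _⟩ | ⟨_, _, h3⟩ | ⟨h3, h4⟩
          · rw [hF.r1] at h3
            norm_num at h3
          · linarith
          · rw [h3, h4]
            ring
        rw [h2]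
        simp
      · intro p hp
        obtain ⟨p0, p1⟩ := hm i1 p hp
        rw [EQC_cc hC i0 p i1, A1 p p0]
        simp
    rw [hG] at h1
    unfold Wt at h1
    rw [EQC_aa hC i1, if_neg hF.d12, if_pos rfl] at h1
    have h5 : R i1 i2 i1 i2 = R i2 i1 i2 i1 := by
      rw [hC.a12 i1 i2 i1 i2, hC.a34 i2 i1 i1 i2, neg_neg]
    rw [h5]
    linarith
  refine ⟨fun q h => ⟨ha q h, ha1 q h⟩, hK, ?_, hb, hc, ?_, ?_⟩
  · -- the length of `R(z,·,x,y)`
    have h1 := hWG i2 d20
    have hG : Gn R i0 i1 i2 r i2 = 3 * ∑ p, R i0 p i1 i2 ^ 2 := by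
      unfold Gn
      rw [hall i1 (fun p => R i0 p i1 i2 ^ 2) (by simp [EQC_aa hC]) (by simp [A1 i2 d20])]
      rw [Finset.sum_eq_zero (s := (univ.erase i0).erase i2), mul_zero, add_zero, Finset.mul_sum]
      · refine Finset.sum_congr rfl fun p hp => ?_
        obtain ⟨p0, p1⟩ := hm i1 p hp
        rcases hb p i2 p0 d20 with ⟨h2, _, h3⟩ | ⟨h3, h4⟩
        · have h4 : R i0 i2 i1 p = - R i0 p i1 i2 := by linarith
          rw [h2, h4]
          ring
        · rw [h3, h4]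
          simp
      · intro p hp
        obtain ⟨p0, p2⟩ := hm i2 p hp
        rw [EQC_cc hC i0 p i2, A2 p p0]
        simp
    rw [hG] at h1
    unfold Wt at h1
    rw [EQC_aa hC i2, if_pos rfl, if_neg hF.d12.symm, hK] at h1
    linarith
  · intro q q0 q1 q2 hrq
    have h1 := hWG q q0
    have hG : Gn R i0 i1 i2 r q = 0 := by
      unfold Gn
      rw [Finset.sum_eq_zero, Finset.sum_eq_zero, mul_zero, add_zero]
      · intro p hp
        obtain ⟨p0, p2⟩ := hm i2 p hp
        have h2 : 2 * R i0 p i2 q - R i0 q i2 p = 0 := by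
          rcases hc p q p0 q0 with ⟨_, h3, _⟩ | ⟨_, _, h3⟩ | ⟨h3, h4⟩
          · exact absurd h3 hrq
          · linarith
          · rw [h3, h4]
            ring
        rw [h2]
        simp
      · intro p hp
        obtain ⟨p0, p1⟩ := hm i1 p hp
        rcases hb p q p0 q0 with ⟨_, h3, _⟩ | ⟨h3, h4⟩
        · exact absurd h3 hrq
        · rw [h3, h4]
          simp
    rw [hG] at h1
    unfold Wt at h1
    rw [if_neg q1, if_neg q2] at h1
    linarith
  · intro q q0 q1 q2 hrq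
    have h1 := hWG q q0
    have hG : Gn R i0 i1 i2 r q = 3 * (∑ p, R i0 p i1 q ^ 2) + 3 * ∑ p, R i0 p i2 q ^ 2 := by
      unfold Gn
      rw [hall i1 (fun p => R i0 p i1 q ^ 2) (by simp [EQC_aa hC]) (by simp [A1 q q0]),
        hall i2 (fun p => R i0 p i2 q ^ 2) (by simp [EQC_aa hC]) (by simp [A2 q q0]),
        Finset.mul_sum, Finset.mul_sum, Finset.mul_sum]
      congr 1
      · refine Finset.sum_congr rfl fun p hp => ?_
        obtain ⟨p0, p1⟩ := hm i1 p hp
        rcases hb p q p0 q0 with ⟨h2, _, h3⟩ | ⟨h3, h4⟩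
        · have h4 : R i0 q i1 p = - R i0 p i1 q := by linarith
          rw [h2, h4]
          ring
        · rw [h3, h4]
          simp
      · refine Finset.sum_congr rfl fun p hp => ?_
        obtain ⟨p0, p2⟩ := hm i2 p hp
        rcases hc p q p0 q0 with ⟨h2, _, h3⟩ | ⟨_, h3, _⟩ | ⟨h3, h4⟩
        · rw [h2, h3]
          ring
        · rw [hrq] at h3
          norm_num at h3
        · rw [h3, h4]
          simp
    rw [hG] at h1
    unfold Wt at h1
    rw [if_neg q1, if_neg q2] at h1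
    linarith

end Pool.Agent.Helper47.FLG
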